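import Pool.Agent.H88.L.Y143.Defs

/-!
# The monodromy filtration on a subspace
-/

namespace Pool.Agent.Y143

universe u v

open Module

variable {Ω : Type u} [Field Ω] {V : Type v} [AddCommGroup V] [Module Ω V]

/-- `M` is the monodromy filtration of the restriction of the (nilpotent) operator `N` to the
subspace `S`: a finite increasing filtration of `S` such that `N (M_a) ⊆ M_(a - 2)` and `N ^ a`
induces an isomorphism of `M_a / M_(a - 1)` with `M_(-a) / M_(-a - 1)` for all `a ≥ 0`. -/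
structure IsMonodromyFiltrationOn (S : Submodule Ω V) (N : Module.End Ω V)
    (M : ℤ → Submodule Ω V) : Prop where
  mono : Monotone M
  bot : ∃ a, M a = ⊥
  top : ∃ a, M a = S
  le : ∀ a, M a ≤ S
  map : ∀ a x, x ∈ M a → N x ∈ M (a - 2)
  inj : ∀ (a : ℕ) x, x ∈ M a → (N ^ a) x ∈ M (-a - 1) → x ∈ M (a - 1)
  surj : ∀ (a : ℕ) y, y ∈ M (-a) → ∃ x ∈ M a, y - (N ^ a) x ∈ M (-a - 1)

end Pool.Agent.Y143
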